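import Pool.Agent.Helper57.IA.St

/-! Module RN of the project IA (part P): numbers for the reservoir. -/

set_option autoImplicit false

namespace Pool.Agent.Helper94.IA57

open Finset Pool.Agent.Helper93.IA Pool.Agent.Helper57.IA

theorem hRN : StRN := by
  intro η hη
  set c : ℝ := 3 * η ^ 2 / 128 with hc
  have hc0 : 0 < c := by positivity
  obtain ⟨N, hN⟩ := exists_nat_gt (324 / c ^ 3)
  refine ⟨N + 1, fun n hn => ?_⟩
  have hn1 : 1 ≤ n := le_trans (Nat.le_add_left 1 N) hn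
  have hn0 : (0 : ℝ) < n := by exact_mod_cast hn1
  refine ⟨hn1, ?_⟩
  have hNn : (N : ℝ) ≤ n := by exact_mod_cast (le_trans (Nat.le_succ N) hn)
  have hlt : 324 / c ^ 3 < (n : ℝ) := lt_of_lt_of_le hN hNn
  have hc3 : 0 < c ^ 3 := pow_pos hc0 3
  have h324 : 324 < (n : ℝ) * c ^ 3 := (div_lt_iff₀ hc3).1 hlt
  have hexp : -(η / 16) * (η / 2 * n) + 2 * (η / 16) ^ 2 * n = -(c * n) := by
    rw [hc]
    ring
  rw [hexp, Real.exp_neg]
  have hx : 0 ≤ c * n := (mul_pos hc0 hn0).le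
  have hp := Real.pow_div_factorial_le_exp (c * n) hx 3
  have hfac : ((Nat.factorial 3 : ℕ) : ℝ) = 6 := by norm_num [Nat.factorial]
  rw [hfac] at hp
  have hE : 0 < Real.exp (c * n) := Real.exp_pos _
  have hn2 : (0 : ℝ) < (n : ℝ) ^ 2 := pow_pos hn0 2
  have h1 : 54 * (n : ℝ) ^ 2 < Real.exp (c * n) := by
    refine lt_of_lt_of_le ?_ hp
    rw [lt_div_iff₀ (by norm_num : (0 : ℝ) < 6)]
    have h2 : 324 * (n : ℝ) ^ 2 < (n : ℝ) * c ^ 3 * (n : ℝ) ^ 2 := mul_lt_mul_of_pos_right h324 hn2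
    have h3 : (n : ℝ) * c ^ 3 * (n : ℝ) ^ 2 = (c * n) ^ 3 := by ring
    rw [← h3]
    linarith
  rw [← div_eq_mul_inv, div_lt_one hE]
  exact h1

end Pool.Agent.Helper94.IA57
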